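import Pool.Agent.H359R3.SetVersion

/-!
Let `A ≥ 1` and let `S` be a set containing a prime of the form `x^2+xy+Ay^2`. For arbitrarily
large `X`, at least `X / (log X)^37` of the integers `n` in `(X, 2X]` satisfy `n^2+n+A = s^2 m`
with `m` squarefree, `s ≤ (log X)^41`, and an odd number of primes of `S` dividing `m`.
-/

theorem Pool.Agent.Results.MP_8be758_nt.PrimeSetParity.result
    (A : ℕ) (hA : 1 ≤ A) (S : Set ℕ)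
    (hS : ∃ p ∈ S, p.Prime ∧ ∃ x y : ℤ, (p : ℤ) = x ^ 2 + x * y + A * y ^ 2) (X0 : ℕ) :
    ∃ X : ℕ, X0 ≤ X ∧ (X : ℝ) / Real.log X ^ 37 ≤
      (Set.ncard {n : ℕ | X < n ∧ n ≤ 2 * X ∧ ∃ s m : ℕ, n ^ 2 + n + A = s ^ 2 * m ∧ Squarefree m ∧
        (s : ℝ) ≤ Real.log X ^ 41 ∧ Odd (Set.ncard {p : ℕ | p.Prime ∧ p ∣ m ∧ p ∈ S})} : ℝ) := by
  obtain ⟨p, hpS, hp, x, y, hxy⟩ := hS
  obtain ⟨X, hX, hc⟩ := H359R3.main_set 1 A hA (Or.inl le_rfl) (by omega) S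
    ⟨p, hpS, hp, x, y, by rw [hxy]; push_cast; ring⟩ X0
  refine ⟨X, hX, ?_⟩
  have heq : H359R3.GS 1 A S X = {n : ℕ | X < n ∧ n ≤ 2 * X ∧ ∃ s m : ℕ,
      n ^ 2 + n + A = s ^ 2 * m ∧ Squarefree m ∧
        (s : ℝ) ≤ Real.log X ^ 41 ∧ Odd (Set.ncard {p : ℕ | p.Prime ∧ p ∣ m ∧ p ∈ S})} := by
    unfold H359R3.GS H359R3.PP
    simp only [one_mul]
  rw [heq] at hc
  exact hc
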