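import Mathlib
import Pool.Agent.H373R2.T7.RS2

/-!
Primes `n^2 + n + a` with `n` restricted to an arbitrary set `S` of integers up to `x`: for all but a proportion
`1 / log^U x` of the `a ≤ A` (`A` of the order of magnitude of `x^2`), and more generally of the `k`-tuples, the number of
`n ∈ S` with all `n^2 + n + a_i` prime is given by the number of `n ∈ S` with all `n^2 + n + a_i` free of primes `≤ z`, for
`z` a power of `log x`.
-/

namespace Pool.Agent.Results.MP_8be758_nt.RestrictedArguments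
open Finset Polynomial Pool.Agent.H373R2.T7.RS

lemma deg : (X ^ 2 + X : ℤ[X]).natDegree = 2 := by compute_degree!

lemma lc : 0 < (X ^ 2 + X : ℤ[X]).leadingCoeff := by
  unfold leadingCoeff
  rw [deg]
  simp [coeff_X]

open Classical in
theorem result (k : ℕ) (B : ℕ) (hB : 1 ≤ B) (U : ℕ) (ε : ℝ) (hε : 0 < ε) :
    ∃ B₀ : ℕ, ∀ E : ℕ, ∃ x₀ : ℕ, ∀ x : ℕ, x₀ ≤ x → ∀ A : ℕ, A ≤ B * x ^ 2 → x ^ 2 ≤ B * A →
      ∀ z : ℕ, Real.log x ^ B₀ ≤ z → (z : ℝ) ≤ Real.log x ^ E → ∀ S : Finset ℕ, S ⊆ Icc 1 x →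
      (((Fintype.piFinset (fun _ : Fin k => Icc 1 A)).filter (fun a =>
        ¬ |(primesIn (fun n => n ^ 2 + n) a S : ℝ) - expectedIn (fun n => n ^ 2 + n) 2 a z x S| ≤
          ε * expectedIn (fun n => n ^ 2 + n) 2 a z x S + x / Real.log x ^ U)).card : ℝ) ≤ (A : ℝ) ^ k / Real.log x ^ U :=
  shifts_of_one k (fun n => n ^ 2 + n) (X ^ 2 + X) (fun n => by simp) 2 deg (by norm_num) lc B hB U ε hε

end Pool.Agent.Results.MP_8be758_nt.RestrictedArguments
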