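import Mathlib
import Pool.Agent.H373R2.T4.Special

/-!
Primes `n^2 + n + a` for `a` up to `A`, where `A` is only required to be at least `x^(1/2+δ)`: for every number `k`
of constant terms and every `θ < 1`, a positive proportion of all `(a_1, ..., a_k)` in `[1, A]^k` has at least `θ` times the
number of `n ≤ x` with all `n^2 + n + a_i` prime which is predicted by Hardy and Littlewood (with the singular product cut
at `z`).
-/

namespace Pool.Agent.Results.MP_8be758_nt.ShortShiftProportion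
open Finset Pool.Agent.H373R2.SH

/-- the number of residues `r` mod `p` such that `p` divides `r^2 + r + a_i` for some `i` -/
def nu {k : ℕ} (a : Fin k → ℕ) (p : ℕ) : ℕ := #{r ∈ range p | ∃ i, p ∣ r ^ 2 + r + a i}

/-- the product over the primes `p ≤ z` of `(1 - 1/p)^(-k) (1 - nu(p)/p)` -/
noncomputable def HL {k : ℕ} (a : Fin k → ℕ) (z : ℕ) : ℝ :=
  ∏ p ∈ (range (z + 1)).filter Nat.Prime, (((1 - 1 / (p : ℝ)) ^ k)⁻¹ * (1 - (nu a p : ℝ) / p))

/-- the number of `1 ≤ n ≤ x` such that all the `n^2 + n + a_i` are prime -/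
def P {k : ℕ} (a : Fin k → ℕ) (x : ℕ) : ℕ := #{n ∈ Icc 1 x | ∀ i, (n ^ 2 + n + a i).Prime}

/-- the product `∏ (1 - (D|w) / (w - 1))` over the odd primes `w ≤ z` -/
noncomputable def C (D : ℤ) (z : ℕ) : ℝ :=
  ∏ w ∈ (range (z + 1)).filter (fun w => Nat.Prime w ∧ w ≠ 2), (1 - (jacobiSym D w : ℝ) / ((w : ℝ) - 1))

lemma HL_eq {k : ℕ} (a : Fin k → ℕ) (z : ℕ) : sgS (fun _ n => n ^ 2 + n) a z = HL a z := by
  unfold sgS HL ufS dnS omS nu
  apply prod_congr rfl; intro p _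
  simp only [add_comm (a _)]

lemma P_eq {k : ℕ} (a : Fin k → ℕ) (x : ℕ) : cntS (fun _ n => n ^ 2 + n) a x = P a x := by
  unfold cntS P
  simp only [add_comm (a _)]

lemma nu_two (a : ℕ) (ha : Odd a) : nu (fun _ : Fin 1 => a) 2 = 0 := by
  unfold nu
  obtain ⟨b, hb⟩ := ha
  rw [card_eq_zero, filter_eq_empty_iff]
  intro r hr
  rw [mem_range] at hr
  rw [exists_const]
  interval_cases r
  · omega
  · omega

lemma nu_odd (a p : ℕ) (hp : p.Prime) (hp2 : p ≠ 2) : (nu (fun _ : Fin 1 => a) p : ℤ) = jacobiSym (1 - 4 * (a : ℤ)) p + 1 := by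
  have : Fact p.Prime := ⟨hp⟩
  rw [← jacobiSym.legendreSym.to_jacobiSym, ← legendreSym.card_sqrts p hp2]
  have h2 : (2 : ZMod p) ≠ 0 := by
    intro h
    have h3 : ((2 : ℕ) : ZMod p) = 0 := by exact_mod_cast h
    rw [ZMod.natCast_eq_zero_iff] at h3
    exact hp2 ((Nat.prime_dvd_prime_iff_eq hp Nat.prime_two).1 h3)
  have h1 : nu (fun _ : Fin 1 => a) p = #({x : ZMod p | x ^ 2 = ((1 - 4 * (a : ℤ) : ℤ) : ZMod p)} : Set (ZMod p)).toFinset := by
    unfold nu
    have key : ∀ r : ℕ, (∃ _ : Fin 1, p ∣ r ^ 2 + r + a) ↔ (2 * (r : ZMod p) + 1) ^ 2 = ((1 - 4 * (a : ℤ) : ℤ) : ZMod p) := by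
      intro r
      rw [exists_const, ← ZMod.natCast_eq_zero_iff]
      push_cast
      constructor
      · intro h
        linear_combination 4 * h
      · intro h
        have h4 : (2 : ZMod p) * 2 * ((r : ZMod p) ^ 2 + r + a) = 0 := by linear_combination h
        rcases mul_eq_zero.1 h4 with h5 | h5
        · exact absurd h5 (mul_ne_zero h2 h2)
        · exact h5
    apply card_bij (fun (r : ℕ) _ => 2 * (r : ZMod p) + 1)
    · intro r hr
      rw [mem_filter] at hr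
      simp only [Set.mem_toFinset, Set.mem_ofPred_eq]
      exact (key r).1 hr.2
    · intro r hr s hs hrs
      rw [mem_filter, mem_range] at hr hs
      have hrs' : (r : ZMod p) = s := mul_left_cancel₀ h2 (add_right_cancel hrs)
      have := (ZMod.natCast_eq_natCast_iff' r s p).1 hrs'
      rwa [Nat.mod_eq_of_lt hr.1, Nat.mod_eq_of_lt hs.1] at this
    · intro x hx
      simp only [Set.mem_toFinset, Set.mem_ofPred_eq] at hx
      have hval : ((((x - 1) * 2⁻¹ : ZMod p).val : ℕ) : ZMod p) = (x - 1) * 2⁻¹ := ZMod.natCast_zmod_val _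
      have hx2 : 2 * ((((x - 1) * 2⁻¹ : ZMod p).val : ℕ) : ZMod p) + 1 = x := by
        rw [hval]; field_simp; ring
      refine ⟨((x - 1) * 2⁻¹ : ZMod p).val, ?_, hx2⟩
      rw [mem_filter, mem_range]
      refine ⟨ZMod.val_lt _, (key _).2 ?_⟩
      rw [hx2]; exact hx
  rw [h1]

/-- for `k = 1` and odd `a` the product is twice the Hardy-Littlewood product `C(1 - 4a)`, cut at `z` -/
theorem HL_one (a z : ℕ) (ha : Odd a) (hz : 2 ≤ z) : HL (fun _ : Fin 1 => a) z = 2 * C (1 - 4 * (a : ℤ)) z := by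
  unfold HL C
  have h1 : (range (z + 1)).filter Nat.Prime = insert 2 ((range (z + 1)).filter (fun w => Nat.Prime w ∧ w ≠ 2)) := by
    ext w
    rw [mem_insert, mem_filter, mem_filter, mem_range]
    constructor
    · rintro ⟨h1, h2⟩
      by_cases h : w = 2
      · exact Or.inl h
      · exact Or.inr ⟨h1, h2, h⟩
    · rintro (rfl | ⟨h1, h2, -⟩)
      · exact ⟨by omega, Nat.prime_two⟩
      · exact ⟨h1, h2⟩
  rw [h1, prod_insert (by simp), nu_two a ha]
  congr 1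
  · norm_num
  · apply prod_congr rfl; intro p hp
    rw [mem_filter] at hp
    have hp1 : (1 : ℝ) < p := by exact_mod_cast hp.2.1.one_lt
    have h2 : (nu (fun _ : Fin 1 => a) p : ℝ) = (jacobiSym (1 - 4 * (a : ℤ)) p : ℝ) + 1 := by
      have := nu_odd a p hp.2.1 hp.2.2
      exact_mod_cast this
    rw [h2]
    have h3 : (p : ℝ) - 1 ≠ 0 := by linarith
    field_simp
    ring

lemma odd_of_P {k : ℕ} (a : Fin k → ℕ) (x : ℕ) (ha : ∀ i, 1 ≤ a i) (h : 0 < P a x) (i : Fin k) : Odd (a i) := by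
  unfold P at h
  obtain ⟨n, hn⟩ := card_pos.1 h
  rw [mem_filter, mem_Icc] at hn
  have h1 := hn.2 i
  have h2 : n ^ 2 + n + a i ≠ 2 := by
    have := ha i
    have : 1 ≤ n ^ 2 := Nat.one_le_pow _ _ (by omega)
    omega
  have h3 := h1.odd_of_ne_two h2
  have h4 : Even (n ^ 2 + n) := by
    have := Nat.even_mul_succ_self n
    rwa [show n ^ 2 + n = n * (n + 1) by ring]
  rw [Nat.odd_add'] at h3
  exact h3.2 h4

open Classical in
theorem result :
    (∀ (k : ℕ), 1 ≤ k → ∀ (δ : ℝ), 0 < δ → δ < 1 / 2 → ∀ (θ : ℝ), 0 < θ → θ < 1 →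
      ∃ c : ℝ, 0 < c ∧ ∃ y₀ x₀ : ℕ, ∀ x : ℕ, x₀ ≤ x → ∀ A : ℕ, (x : ℝ) ^ (1 / 2 + δ) ≤ A → A ≤ x ^ 2 →
        ∀ z : ℕ, y₀ ≤ z → z ^ 6 ≤ A →
        c * (A : ℝ) ^ k ≤ #((Fintype.piFinset fun _ : Fin k => Icc 1 A).filter (fun a =>
          Function.Injective a ∧ (∀ i, Odd (a i)) ∧ θ * HL a z * (x / (2 * Real.log x) ^ k) ≤ P a x ∧
          c * (x / (Real.log x) ^ k) ≤ P a x))) ∧
    ∀ a z : ℕ, Odd a → 2 ≤ z → HL (fun _ : Fin 1 => a) z = 2 * C (1 - 4 * (a : ℤ)) z := by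
  refine ⟨fun k hk δ hδ0 hδ1 θ hθ0 hθ1 => ?_, HL_one⟩
  obtain ⟨c, hc, y₀, x₀, h⟩ := Pool.Agent.H373R2.T4.near_sq_add k hk δ hδ0 hδ1 θ hθ0 hθ1
  refine ⟨c, hc, y₀, x₀ + 2, fun x hx A hA1 hA2 z hz hz6 => ?_⟩
  have hx2 : (2 : ℝ) ≤ x := by exact_mod_cast (by omega : 2 ≤ x)
  refine (h x (by omega) A hA1 hA2 z hz hz6).trans ?_
  · rw [Nat.cast_le]
    apply card_le_card
    intro a ha
    rw [mem_filter] at ha ⊢
    obtain ⟨h1, h2, h3, h4⟩ := ha
    rw [HL_eq, P_eq] at h2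
    rw [P_eq] at h3
    refine ⟨h1, h4, ?_, h2, h3⟩
    apply odd_of_P a x
    · intro i
      have := Fintype.mem_piFinset.1 h1 i
      exact (mem_Icc.1 this).1
    · have h5 : 0 < c * (x / (Real.log x) ^ k) := by
        have : 0 < Real.log x := Real.log_pos (by linarith)
        positivity
      have h6 := h5.trans_le h3
      exact_mod_cast h6

end Pool.Agent.Results.MP_8be758_nt.ShortShiftProportion
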